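import Pool.Agent.MP_6a4325_al.H62.Base2

/-!
Row PL: an infinite polycyclic group has a plinth in a subgroup of finite index.
-/

set_option autoImplicit false

namespace Pool.Agent.MP_6a4325_al.H40

open Pool.Agent.MP_6a4325_al.H62

variable {G : Type} [Group G]

theorem inf_center (D F : Subgroup G) (hD : D.FG) [Infinite D] [Finite F]
    (hc : ∀ x ∈ D, ∀ y ∈ D, x * y * x⁻¹ * y⁻¹ ∈ F) :
    Infinite (D ⊓ Subgroup.centralizer (D : Set G) : Subgroup G) := by
  obtain ⟨T, hT, hfin⟩ := (Subgroup.fg_iff D).1 hD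
  have := hfin.to_subtype
  have hm : ∀ t : T, (t : G) ∈ D := fun t => hT ▸ Subgroup.subset_closure t.2
  let f : D → (T → F) := fun x t => ⟨x * t * x⁻¹ * (t : G)⁻¹, hc _ x.2 _ (hm t)⟩
  obtain ⟨y, hy⟩ := Finite.exists_infinite_fiber f
  obtain ⟨x0⟩ : Nonempty (f ⁻¹' {y}) := inferInstance
  have key : ∀ x : f ⁻¹' {y}, ((x0.1 : G))⁻¹ * x.1 ∈ D ⊓ Subgroup.centralizer (D : Set G) := by
    intro x
    refine ⟨D.mul_mem (D.inv_mem x0.1.2) x.1.2, ?_⟩
    have h1 : Subgroup.centralizer (D : Set G) = Subgroup.centralizer T := by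
      rw [← hT, Subgroup.centralizer_closure]
    change _ ∈ Subgroup.centralizer (D : Set G)
    rw [h1, Subgroup.mem_centralizer_iff]
    intro t ht
    have e : f x.1 = f x0.1 := x.2.trans x0.2.symm
    have e2 : (x.1 : G) * t * (x.1 : G)⁻¹ * t⁻¹ = x0.1 * t * (x0.1 : G)⁻¹ * t⁻¹ :=
      congrArg Subtype.val (congrFun e ⟨t, ht⟩)
    have e3 : (x.1 : G) * t * (x.1 : G)⁻¹ = x0.1 * t * (x0.1 : G)⁻¹ := mul_right_cancel e2
    calc t * ((x0.1 : G)⁻¹ * x.1) = (x0.1 : G)⁻¹ * (x0.1 * t * (x0.1 : G)⁻¹) * x.1 := by group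
      _ = (x0.1 : G)⁻¹ * x.1 * t := by rw [← e3]; group
  refine Infinite.of_injective (fun x : f ⁻¹' {y} => ⟨_, key x⟩) ?_
  intro a b e
  exact Subtype.ext (Subtype.ext (mul_left_cancel (congrArg Subtype.val e)))

theorem ex_pw {Z : Subgroup G} (h : Cm Z Z) (hZ : Z.FG) [Infinite Z] :
    ∃ m, h.pw m ≠ ⊥ ∧ Tf (h.pw m) := by
  let := h.commGroup
  have hfg : Group.FG Z := (Group.fg_iff_subgroup_fg Z).2 hZ
  have h1 : Group.FG (CommGroup.torsion Z) := (Group.fg_iff_subgroup_fg _).2 (H7.fg_of_comm _)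
  have h2 : Finite (CommGroup.torsion Z) :=
    CommGroup.finite_of_fg_isMulTorsion _ CommMonoid.torsion.isMulTorsion
  have h3 : ∀ z ∈ Z, IsOfFinOrder z → z ^ Nat.card (CommGroup.torsion Z) = 1 := by
    intro z hz hf
    have hf1 : IsOfFinOrder (Z.subtype ⟨z, hz⟩) := hf
    have hf2 : IsOfFinOrder (⟨z, hz⟩ : Z) := Z.subtype_injective.isOfFinOrder_iff.1 hf1
    have := pow_card_eq_one' (G := CommGroup.torsion Z) (x := ⟨⟨z, hz⟩, hf2⟩)
    exact congrArg (fun u : CommGroup.torsion Z => ((u : Z) : G)) this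
  have h4 : 0 < Nat.card (CommGroup.torsion Z) := Nat.card_pos
  refine ⟨Nat.card (CommGroup.torsion Z), fun e => ?_, ?_⟩
  · have h5 : IsMulTorsion Z := by
      intro z
      have : (z : G) ^ Nat.card (CommGroup.torsion Z) ∈ h.pw _ := ⟨z, z.2, rfl⟩
      rw [e, Subgroup.mem_bot] at this
      exact isOfFinOrder_iff_pow_eq_one.2 ⟨_, h4, Subtype.ext this⟩
    have := CommGroup.finite_of_fg_isMulTorsion Z h5
    exact not_finite Z
  · rintro _ ⟨z, hz, rfl⟩ hf
    exact h3 z hz (hf.of_pow h4.ne')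

theorem pl0 : PCApi → SPl0 := by
  intro api G _ hG hi
  classical
  have hs := api.solv G hG
  have hex : ∃ n, Finite (derivedSeries G n) := by
    obtain ⟨n, hn⟩ := hs.solvable
    exact ⟨n, by rw [hn]; infer_instance⟩
  obtain ⟨d, hd⟩ : ∃ d, Nat.find hex = d + 1 := by
    refine Nat.exists_eq_succ_of_ne_zero fun e => ?_
    have h0 := Nat.find_spec hex
    rw [e, derivedSeries_zero] at h0
    have := Finite.of_equiv _ (Subgroup.topEquiv (G := G)).toEquiv
    exact not_finite G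
  have hF : Finite (derivedSeries G (d + 1)) := hd ▸ Nat.find_spec hex
  have hD : Infinite (derivedSeries G d) :=
    not_finite_iff_infinite.1 (Nat.find_min hex (by omega))
  have hZ := inf_center (derivedSeries G d) (derivedSeries G (d + 1)) (api.fg G hG _)
    fun x hx y hy => by
      rw [derivedSeries_succ]
      exact Subgroup.commutator_mem_commutator hx hy
  have hc : Cm (derivedSeries G d ⊓ Subgroup.centralizer (derivedSeries G d : Set G))
      (derivedSeries G d ⊓ Subgroup.centralizer (derivedSeries G d : Set G)) :=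
    fun a ha b hb => hb.2 a ha.1
  obtain ⟨m, h1, h2⟩ := ex_pw hc (api.fg G hG _)
  exact ⟨hc.pw m, hc.pw_normal m, h1, fun a ha b hb => hc a (hc.pw_le m ha) b (hc.pw_le m hb), h2⟩

theorem pl : PCApi → SPl0 → SPl := by
  intro api h0 G _ hG hi
  classical
  have hex : ∃ m, ∃ A : Subgroup G, A ≠ ⊥ ∧ Cm A A ∧ Tf A ∧
      (∃ K : Subgroup G, K.FiniteIndex ∧ Nz A K) ∧ PC m A := by
    obtain ⟨A, hn, h1, h2, h3⟩ := h0 G hG hi
    obtain ⟨n, hn⟩ := hG
    exact ⟨n, A, h1, h2, h3, ⟨⊤, inferInstance, nz_of_normal A ⊤⟩,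
      api.sub n G A A.subtype A.subtype_injective hn⟩
  obtain ⟨A, h1, h2, h3, ⟨K0, hK0, hz⟩, hm⟩ := Nat.find_spec hex
  have hAK : A ≤ K0 ⊔ A := le_sup_right
  have hK : (K0 ⊔ A).FiniteIndex := Subgroup.finiteIndex_of_le le_sup_left
  have hle : K0 ⊔ A ≤ Subgroup.normalizer (A : Set G) := by
    refine sup_le (fun k hk => ?_) Subgroup.le_normalizer
    rw [Subgroup.mem_normalizer_iff]
    refine fun a => ⟨hz k hk a, fun ha => ?_⟩
    have := hz k⁻¹ (K0.inv_mem hk) _ ha
    simpa [mul_assoc] using this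
  have hz2 : Nz A (K0 ⊔ A) := fun k hk a ha => (Subgroup.mem_normalizer_iff.1 (hle hk) a).1 ha
  generalize K0 ⊔ A = K at hAK hK hz2
  have hP : H62.Poly K := by
    obtain ⟨n, hn⟩ := hG
    exact ⟨n, api.sub n G K K.subtype K.subtype_injective hn⟩
  refine ⟨K, hK, A.subgroupOf K, hz2.normal_subgroupOf, fun e => h1 ?_, api.fg K hP _,
    fun a ha b hb => Subtype.ext (h2 a ha b hb), fun b hb hf => Subtype.ext ?_, ?_⟩
  · rw [← Subgroup.map_subtype_inj, Subgroup.subgroupOf_map_subtype, inf_eq_left.2 hAK,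
      Subgroup.map_bot] at e
    exact e
  · exact h3 b hb (K.subtype_injective.isOfFinOrder_iff.2 hf)
  · intro L hL B hB hn
    by_contra hcon
    push Not at hcon
    have hBA : B.map K.subtype ≤ A := by
      rintro _ ⟨b, hb, rfl⟩
      exact hB hb
    have e1 : (B.map K.subtype).subgroupOf K = B :=
      Subgroup.comap_map_eq_self_of_injective K.subtype_injective B
    have e2 : (B.map K.subtype).relIndex A = 0 := by
      rw [← Subgroup.relIndex_subgroupOf hAK, e1]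
      exact hcon.2
    obtain ⟨m, hlt, hpc⟩ := api.subInf _ A ((B.map K.subtype).subgroupOf A) e2 hm
    refine Nat.find_min hex hlt ⟨B.map K.subtype, fun e => hcon.1 ?_,
      fun a ha b hb => h2 a (hBA ha) b (hBA hb), fun b hb => h3 b (hBA hb),
      ⟨L.map K.subtype, finiteIndex_map_subtype K hK L hL, ?_⟩, ?_⟩
    · rw [← e1, e]
      exact Subgroup.bot_subgroupOf K
    · rintro _ ⟨l, hl, rfl⟩ _ ⟨b, hb, rfl⟩
      exact ⟨l * b * l⁻¹, hn l hl b hb, rfl⟩
    · exact api.sub m _ _ (Subgroup.subgroupOfEquivOfLe hBA).symm.toMonoidHom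
        (Subgroup.subgroupOfEquivOfLe hBA).symm.injective hpc

end Pool.Agent.MP_6a4325_al.H40
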